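import Mathlib
import Pool.Agent.Helper439.RFDefs
import Pool.Agent.Helper439.HallRF

namespace Pool.Agent.Results.MP_514792_al.IntermediateRF

open Pool.Agent.Helper439.RF Pool.Agent.Helper439.HallG

/-- `f` is of intermediate growth: faster than every polynomial and slower than every exponential. -/
def IsIntermediate (f : ℕ → ℝ) : Prop :=
  (∀ d : ℕ, 1 ≤ d → Dominated (fun n => (n : ℝ) ^ d) f ∧ ¬ Dominated f (fun n => (n : ℝ) ^ d)) ∧
    Dominated f (fun n => Real.exp n) ∧ ¬ Dominated (fun n => Real.exp n) f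

/-! ### the sequences -/

def es : ℕ → ℕ
  | 0 => 5
  | j + 1 => 2 ^ (es j - 2)

theorem two_pow_ge (x : ℕ) (hx : 5 ≤ x) : x + 2 ≤ 2 ^ (x - 2) := by
  induction x, hx using Nat.le_induction with
  | base => norm_num
  | succ x hx ih =>
    have : x + 1 - 2 = (x - 2) + 1 := by omega
    rw [this, pow_succ]
    omega

theorem es_ge (j : ℕ) : j + 5 ≤ es j := by
  induction j with
  | zero => simp [es]
  | succ j ih =>
    have := two_pow_ge (es j) (by omega)
    simp only [es]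
    omega

theorem es_succ (j : ℕ) : es j + 2 ≤ es (j + 1) := two_pow_ge _ (by have := es_ge j; omega)

theorem es_mono {i j : ℕ} (h : i ≤ j) : es i ≤ es j := by
  induction j, h using Nat.le_induction with
  | base => exact le_rfl
  | succ j _ ih => have := es_succ j; omega

theorem es_strict {i j : ℕ} (h : i < j) : es i + 2 ≤ es j :=
  (es_succ i).trans (es_mono h)

/-- `s j = 2 ^ es j`. -/
def ss (j : ℕ) : ℕ := 2 ^ es j
/-- Exponents of the distinguished central elements. -/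
def kk (j : ℕ) : ℕ := 2 ^ ss j - 1
/-- The degrees. -/
def dd (j : ℕ) : ℕ := 2 ^ (2 ^ (es j - 1))

theorem dd_sq (j : ℕ) : dd j ^ 2 = 2 ^ ss j := by
  unfold dd ss
  rw [← pow_mul]
  congr 1
  have h := es_ge j
  obtain ⟨e, he⟩ : ∃ e, es j = e + 1 := ⟨es j - 1, by omega⟩
  rw [he, pow_succ]
  simp

theorem dd_eq (j : ℕ) : dd j = ss (j + 1) ^ 2 := by
  unfold dd ss
  rw [← pow_mul]
  congr 1
  have h := es_ge j
  obtain ⟨e, he⟩ : ∃ e, es j = e + 2 := ⟨es j - 2, by omega⟩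
  simp only [es]
  rw [he]
  simp [pow_succ]

theorem kk_succ (j : ℕ) : kk j + 1 = 2 ^ ss j := by
  unfold kk
  have : 1 ≤ 2 ^ ss j := Nat.one_le_two_pow
  omega

theorem ss_strict {i j : ℕ} (h : i < j) : ss i < ss j := by
  unfold ss
  have := es_strict h
  exact Nat.pow_lt_pow_right (by norm_num) (by omega)

theorem ss_ge (j : ℕ) : j + 5 < ss j := by
  unfold ss
  have := es_ge j
  exact lt_of_le_of_lt this Nat.lt_two_pow_self

theorem kk_strict {i j : ℕ} (h : i < j) : kk i < kk j := by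
  have h1 := kk_succ i
  have h2 := kk_succ j
  have h3 : 2 ^ ss i < 2 ^ ss j := Nat.pow_lt_pow_right (by norm_num) (ss_strict h)
  omega

theorem kk_mono {i j : ℕ} (h : i ≤ j) : kk i ≤ kk j := by
  rcases h.eq_or_lt with rfl | h
  · exact le_rfl
  · exact (kk_strict h).le

theorem kk_inj : Function.Injective kk := by
  intro i j h
  rcases lt_trichotomy i j with h' | h' | h'
  · exact absurd h (kk_strict h').ne
  · exact h'
  · exact absurd h (kk_strict h').ne'

theorem kk_ge (j : ℕ) : j + 5 ≤ kk j := by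
  have h1 := kk_succ j
  have h2 := ss_ge j
  have h3 : ss j < 2 ^ ss j := Nat.lt_two_pow_self
  omega

theorem dd_mono {i j : ℕ} (h : i ≤ j) : dd i ≤ dd j := by
  unfold dd
  have := es_mono h
  exact Nat.pow_le_pow_right (by norm_num) (Nat.pow_le_pow_right (by norm_num) (by omega))

theorem dd_ge (j : ℕ) : j + 6 ≤ dd j := by
  rw [dd_eq]
  have := ss_ge (j + 1)
  nlinarith

theorem four_dd (j : ℕ) : 4 * dd j = 2 ^ (2 + 2 ^ (es j - 1)) := by
  unfold dd
  rw [pow_add]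
  norm_num

theorem four_dd_le {i j : ℕ} (h : i < j) : 4 * dd i ≤ dd j := by
  rw [four_dd]
  unfold dd
  apply Nat.pow_le_pow_right (by norm_num)
  have h1 := es_strict h
  have h2 := es_ge i
  have h3 : 2 ^ (es i - 1 + 1) ≤ 2 ^ (es j - 1) := Nat.pow_le_pow_right (by norm_num) (by omega)
  have h4 : 2 ^ 1 ≤ 2 ^ (es i - 1) := Nat.pow_le_pow_right (by norm_num) (by omega)
  rw [pow_succ] at h3
  omega

theorem four_dd_dvd {i j : ℕ} (h : i + 2 ≤ j) : 4 * dd i ∣ ss j := by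
  rw [four_dd]
  unfold ss
  apply pow_dvd_pow
  have h1 : es (i + 2) ≤ es j := es_mono h
  have h2 := es_ge i
  have h3 := es_succ i
  have h4 : es (i + 2) = 2 ^ (es (i + 1) - 2) := rfl
  have h5 : 2 ^ (es i) ≤ 2 ^ (es (i + 1) - 2) := Nat.pow_le_pow_right (by norm_num) (by omega)
  obtain ⟨e, he⟩ : ∃ e, es i = e + 1 := ⟨es i - 1, by omega⟩
  have h6 : 2 ^ 1 ≤ 2 ^ e := Nat.pow_le_pow_right (by norm_num) (by omega)
  rw [he, pow_succ] at h5
  rw [he]
  simp only [Nat.add_sub_cancel]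
  omega

theorem pow_sub_one_dvd {a b : ℕ} (h : a ∣ b) : 2 ^ a - 1 ∣ 2 ^ b - 1 := by
  obtain ⟨c, rfl⟩ := h
  have := Nat.sub_dvd_pow_sub_pow (2 ^ a) 1 c
  rwa [one_pow, ← pow_mul] at this

theorem kk_le (j : ℕ) : kk (j + 1) < 2 ^ dd j := by
  have h1 := kk_succ (j + 1)
  have h2 : 2 ^ ss (j + 1) ≤ 2 ^ dd j := by
    apply Nat.pow_le_pow_right (by norm_num)
    rw [dd_eq]
    exact Nat.le_self_pow (by norm_num) _
  omega

theorem MM_le (j : ℕ) : MM dd j ≤ 2 ^ (2 * dd j + 2) := by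
  unfold MM
  have h1 : dd j < 2 ^ dd j := Nat.lt_two_pow_self
  have h2 : 2 ^ (2 * dd j + 2) = 2 ^ (dd j + 1) * (2 * 2 ^ dd j) := by ring
  have h3 : 1 ≤ 2 ^ (dd j + 1) := Nat.one_le_two_pow
  rw [h2]
  nlinarith

theorem MM_mono {i j : ℕ} (h : i ≤ j) : MM dd i ≤ MM dd j := by
  unfold MM
  have := dd_mono h
  have h2 : 2 ^ (dd i + 1) ≤ 2 ^ (dd j + 1) := Nat.pow_le_pow_right (by norm_num) (by omega)
  have h3 := Nat.mul_le_mul h2 this
  omega

/-- Elements of length less than `kk (j+1)` are detected by quotients of order at most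
`2 ^ (12 * dd j + 1)`. -/
theorem stage (j n : ℕ) (hn : n < kk (j + 1)) : Det (SS kk dd) n (2 ^ (12 * dd j + 1)) := by
  intro g hg hw
  have hdd := dd_ge j
  have hM : kk (j + 1) ≤ MM dd j := by
    have h1 := kk_le j
    unfold MM
    have h2 : 2 ^ dd j ≤ 2 ^ (dd j + 1) := Nat.pow_le_pow_right (by norm_num) (by omega)
    have h3 : 2 ^ (dd j + 1) * 1 ≤ 2 ^ (dd j + 1) * dd j := Nat.mul_le_mul_left _ (by omega)
    omega
  have h12 : 12 * dd j + 1 = 3 * (4 * dd j) + 1 := by ring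
  rw [h12]
  refine upper kk dd kk_inj (fun i => by have := kk_ge i; omega) (4 * dd j) (by omega)
    (j + 1) (j + 2) (MM dd j) n ?_ ?_ ?_ ?_ ?_ ?_ (by omega) ?_ g hg hw
  · intro i hi
    exact four_dd_le hi
  · intro i hi
    exact pow_sub_one_dvd (four_dd_dvd hi)
  · intro i h1 h2
    have : i = j + 1 := by omega
    rw [this]
    exact hn
  · omega
  · intro i hi
    exact (kk_mono (show i ≤ j + 1 by omega)).trans hM
  · intro i hi
    exact MM_mono (by omega)
  · have h1 := MM_le j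
    have h2 : 2 ^ (j + 2 + 1) * (2 * 2 ^ (2 * dd j + 2)) = 2 ^ (j + 6 + 2 * dd j) := by ring
    have h3 : 2 ^ (j + 2 + 1) * (2 * MM dd j) ≤ 2 ^ (j + 6 + 2 * dd j) := by
      rw [← h2]
      exact Nat.mul_le_mul_left _ (Nat.mul_le_mul_left _ h1)
    have h4 : 2 ^ (j + 6 + 2 * dd j) ≤ 2 ^ (3 * dd j) := Nat.pow_le_pow_right (by norm_num) (by omega)
    have h5 : 2 ^ (3 * dd j) * 2 ≤ 2 ^ (4 * dd j) := by
      rw [← pow_succ]
      exact Nat.pow_le_pow_right (by norm_num) (by omega)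
    have h6 : 2 ^ 1 ≤ 2 ^ (3 * dd j) := Nat.pow_le_pow_right (by norm_num) (by omega)
    omega

/-- The residual finiteness growth function of our group. -/
noncomputable abbrev FF (n : ℕ) : ℕ := rfGrowth (SS kk dd) n

theorem FF_upper (j n : ℕ) (hn : n < kk (j + 1)) : FF n ≤ 2 ^ (12 * dd j + 1) := (stage j n hn).rf_le

theorem exists_stage (n : ℕ) : ∃ j, n < kk (j + 1) := ⟨n, by have := kk_ge (n + 1); omega⟩

theorem FF_lower (j n : ℕ) (hn : 4 * kk j + 4 ≤ n) : 2 ^ (dd j + 1) ≤ FF n := by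
  obtain ⟨i, hi⟩ := exists_stage n
  exact rf_lower kk dd kk_inj (fun i => by have := kk_ge i; omega) j n _ hn (stage i n hi)



/-- Polynomial lower bounds. -/
theorem FF_poly (e : ℕ) : ∃ C : ℕ, 0 < C ∧ ∀ n : ℕ, 1 ≤ n → n ^ e ≤ C * FF (C * n) := by
  refine ⟨4 * kk 0 + 4 + 4 ^ e * 2 ^ (e ^ 2), by omega, ?_⟩
  intro n hn
  set C := 4 * kk 0 + 4 + 4 ^ e * 2 ^ (e ^ 2) with hC
  set N := C * n with hN
  have hnN : n ≤ N := Nat.le_mul_of_pos_left n (by omega)
  have hN0 : 4 * kk 0 + 4 ≤ N := by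
    have : C * 1 ≤ C * n := Nat.mul_le_mul_left _ hn
    omega
  obtain ⟨j, hj1, hj2⟩ : ∃ j, 4 * kk j + 4 ≤ N ∧ N < 4 * kk (j + 1) + 4 := by
    have hex : ∃ j, N < 4 * kk j + 4 := ⟨N, by have := kk_ge N; omega⟩
    classical
    have h1 := Nat.find_spec hex
    have h2 : Nat.find hex ≠ 0 := by
      intro h0
      rw [h0] at h1
      omega
    obtain ⟨j, hj⟩ := Nat.exists_eq_succ_of_ne_zero h2
    have h3 := Nat.find_min hex (m := j) (by omega)
    rw [hj] at h1
    exact ⟨j, by omega, h1⟩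
  have h1 : N ≤ 4 * 2 ^ ss (j + 1) := by
    have := kk_succ (j + 1)
    omega
  have h2 : ss (j + 1) * e ≤ ss (j + 1) ^ 2 + e ^ 2 := by nlinarith [sq_nonneg ((ss (j + 1) : ℤ) - e)]
  have h3 : n ^ e ≤ 4 ^ e * 2 ^ (e ^ 2) * 2 ^ dd j := by
    calc n ^ e ≤ N ^ e := Nat.pow_le_pow_left hnN e
      _ ≤ (4 * 2 ^ ss (j + 1)) ^ e := Nat.pow_le_pow_left h1 e
      _ = 4 ^ e * 2 ^ (ss (j + 1) * e) := by rw [mul_pow, ← pow_mul]
      _ ≤ 4 ^ e * 2 ^ (ss (j + 1) ^ 2 + e ^ 2) :=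
          Nat.mul_le_mul_left _ (Nat.pow_le_pow_right (by norm_num) h2)
      _ = 4 ^ e * 2 ^ (e ^ 2) * 2 ^ dd j := by rw [dd_eq, pow_add]; ring
  have h4 := FF_lower j N hj1
  have h5 : 2 ^ dd j ≤ 2 ^ (dd j + 1) := Nat.pow_le_pow_right (by norm_num) (by omega)
  calc n ^ e ≤ 4 ^ e * 2 ^ (e ^ 2) * 2 ^ dd j := h3
    _ ≤ C * FF N := Nat.mul_le_mul (by omega) (h5.trans h4)

/-- Exponential upper bound. -/
theorem FF_exp (n : ℕ) : FF n ≤ 2 ^ (12 * dd 0 + 14) * 2 ^ (12 * n) := by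
  rcases Nat.lt_or_ge n (kk 1) with h | h
  · refine (FF_upper 0 n h).trans ?_
    have h1 : 2 ^ (12 * dd 0 + 1) ≤ 2 ^ (12 * dd 0 + 14) := Nat.pow_le_pow_right (by norm_num) (by omega)
    exact h1.trans (Nat.le_mul_of_pos_right _ (by positivity))
  · obtain ⟨j, hj1, hj2⟩ : ∃ j, kk j ≤ n ∧ n < kk (j + 1) := by
      have hex : ∃ j, n < kk j := ⟨n, by have := kk_ge n; omega⟩
      classical
      have h1 := Nat.find_spec hex
      have h2 : Nat.find hex ≠ 0 := by
        intro h0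
        rw [h0] at h1
        have := kk_strict (show 0 < 1 by norm_num)
        omega
      obtain ⟨j, hj⟩ := Nat.exists_eq_succ_of_ne_zero h2
      have h3 := Nat.find_min hex (m := j) (by omega)
      rw [hj] at h1
      exact ⟨j, by omega, h1⟩
    refine (FF_upper j n hj2).trans ?_
    have h1 : dd j ≤ n + 1 := by
      have h2 := kk_succ j
      have h3 := dd_sq j
      have h4 : dd j ≤ dd j ^ 2 := Nat.le_self_pow (by norm_num) _
      omega
    rw [← pow_add]
    apply Nat.pow_le_pow_right (by norm_num)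
    omega

theorem exp_nat_ge (n : ℕ) : (2 : ℝ) ^ n ≤ Real.exp n := by
  have h : (2 : ℝ) ≤ Real.exp 1 := by
    have := Real.add_one_le_exp (1 : ℝ)
    linarith
  calc (2 : ℝ) ^ n ≤ (Real.exp 1) ^ n := pow_le_pow_left₀ (by norm_num) h n
    _ = Real.exp n := by rw [← Real.exp_nat_mul, mul_one]

theorem main_intermediate : IsIntermediate (fun n => (FF n : ℝ)) := by
  refine ⟨fun e _ => ⟨?_, ?_⟩, ?_, ?_⟩
  · obtain ⟨C, hC, h⟩ := FF_poly e
    refine ⟨C, hC, fun n hn => ?_⟩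
    show (n : ℝ) ^ e ≤ C * ((FF (C * n) : ℕ) : ℝ)
    exact_mod_cast h n hn
  · rintro ⟨C1, hC1, h1⟩
    obtain ⟨C2, hC2, h2⟩ := FF_poly (e + 1)
    set M : ℕ := C2 * C1 * (C1 * C2) ^ e with hM
    have h3 : (M + 1) ^ (e + 1) ≤ C2 * FF (C2 * (M + 1)) := h2 (M + 1) (by omega)
    have h4 : FF (C2 * (M + 1)) ≤ C1 * (C1 * (C2 * (M + 1))) ^ e := by
      have h8 : ((FF (C2 * (M + 1)) : ℕ) : ℝ) ≤ C1 * (((C1 * (C2 * (M + 1)) : ℕ)) : ℝ) ^ e :=
        h1 (C2 * (M + 1)) (Nat.mul_pos hC2 (by omega))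
      exact_mod_cast h8
    have h5 : (M + 1) ^ (e + 1) ≤ M * (M + 1) ^ e := by
      calc (M + 1) ^ (e + 1) ≤ C2 * FF (C2 * (M + 1)) := h3
        _ ≤ C2 * (C1 * (C1 * (C2 * (M + 1))) ^ e) := Nat.mul_le_mul_left _ h4
        _ = M * (M + 1) ^ e := by
            rw [hM, ← mul_assoc C1 C2 (M + 1), mul_pow (C1 * C2) (M + 1) e]; ring
    rw [pow_succ, mul_comm] at h5
    have h6 : 0 < (M + 1) ^ e := by positivity
    have h7 := Nat.le_of_mul_le_mul_right h5 h6
    omega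
  · refine ⟨2 ^ (12 * dd 0 + 14), by positivity, ?_⟩
    intro n _
    have h1 : (FF n : ℝ) ≤ 2 ^ (12 * dd 0 + 14) * 2 ^ (12 * n) := by exact_mod_cast FF_exp n
    refine h1.trans ?_
    push_cast
    apply mul_le_mul_of_nonneg_left _ (by positivity)
    refine (exp_nat_ge (12 * n)).trans ?_
    apply Real.exp_le_exp.2
    push_cast
    apply mul_le_mul_of_nonneg_right _ (by positivity)
    calc (12 : ℝ) ≤ 2 ^ 4 := by norm_num
      _ ≤ 2 ^ (12 * dd 0 + 14) := pow_le_pow_right₀ (by norm_num) (by omega)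
  · rintro ⟨C, hC, h⟩
    -- choose the scale `j = C`
    set s := ss (C + 1) with hs
    have hsC : C + 6 < s := ss_ge (C + 1)
    have hs5 : s ^ 5 ≤ 2 ^ s := by
      rw [hs]
      unfold ss
      rw [← pow_mul]
      apply Nat.pow_le_pow_right (by norm_num)
      have h1 := es_ge (C + 1)
      obtain ⟨e, he⟩ : ∃ e, es (C + 1) = e := ⟨_, rfl⟩
      rw [he] at h1 ⊢
      have h2 : ∀ x : ℕ, 5 ≤ x → x * 5 ≤ 2 ^ x := by
        intro x hx
        induction x, hx using Nat.le_induction with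
        | base => norm_num
        | succ x hx ih => rw [pow_succ]; omega
      exact h2 e (by omega)
    have hD : dd C = s ^ 2 := dd_eq C
    have hK : kk C + 1 = s ^ 4 := by
      rw [kk_succ, ← dd_sq, hD, ← pow_mul]
    have hK' : kk (C + 1) + 1 = 2 ^ s := kk_succ (C + 1)
    have hlt : C * kk C < kk (C + 1) := by
      have h1 : (C + 1) * s ^ 4 ≤ s ^ 5 := by
        rw [pow_succ s 4, mul_comm]
        exact Nat.mul_le_mul_left _ (by omega)
      have h2 : C * kk C ≤ C * s ^ 4 := Nat.mul_le_mul_left _ (by omega)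
      have h3 : 1 < s ^ 4 := Nat.one_lt_pow (by norm_num) (by omega)
      nlinarith
    have h1 := h (kk C) (by have := kk_ge C; omega)
    have h2 : (FF (C * kk C) : ℝ) ≤ 2 ^ (12 * dd C + 1) := by exact_mod_cast FF_upper C _ hlt
    have h3 : Real.exp (kk C) ≤ C * 2 ^ (12 * dd C + 1) :=
      h1.trans (mul_le_mul_of_nonneg_left h2 (by positivity))
    have h4 : (C : ℝ) * 2 ^ (12 * dd C + 1) < 2 ^ (C + (12 * dd C + 1)) := by
      rw [pow_add 2 C]
      apply mul_lt_mul_of_pos_right _ (by positivity)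
      exact_mod_cast Nat.lt_two_pow_self (n := C)
    have h5 : C + (12 * dd C + 1) ≤ kk C := by
      have h6 : s ^ 2 * s ^ 2 = s ^ 4 := by ring
      have h7 : C + 6 ≤ dd C := dd_ge C
      have h8 : 14 ≤ dd C := by
        rw [hD]; nlinarith
      rw [hD] at *
      nlinarith
    have h6 : (2 : ℝ) ^ (C + (12 * dd C + 1)) ≤ 2 ^ (kk C) := pow_le_pow_right₀ (by norm_num) h5
    have h7 := exp_nat_ge (kk C)
    linarith

theorem resFinite : Group.ResiduallyFinite (GG kk dd) := by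
  rw [Group.residuallyFinite_iff_exists_finiteIndexNormalSubgroup]
  intro g hg
  obtain ⟨j, hj⟩ := exists_stage (wordLen (SS kk dd) g)
  obtain ⟨N, h1, h2, h3, _⟩ := stage j _ hj g hg le_rfl
  exact ⟨⟨N, h1, h2⟩, h3⟩

/-- **Main theorem**: there is a finitely generated residually finite group whose residual finiteness
growth function is of intermediate growth. -/
theorem result : ∃ (G : Type) (_ : Group G) (S : Set G), S.Finite ∧ Subgroup.closure S = ⊤ ∧
    Group.ResiduallyFinite G ∧ IsIntermediate (fun n => (rfGrowth S n : ℝ)) :=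
  ⟨GG kk dd, inferInstance, SS kk dd, SS_finite kk dd, SS_closure kk dd, resFinite, main_intermediate⟩

end Pool.Agent.Results.MP_514792_al.IntermediateRF
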